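import Pool.Agent.Results.MP_528470_co.TransitiveSubsoluble

/-!
# The 120-cell and the 600-cell are subsoluble

The starting theorem `TransitiveSubsoluble.result` (of `MP_528470_co`) says that every finite
transitive set is subsoluble.  Here we verify that the vertex sets of the 120-cell (600 points) and
of the 600-cell (120 points), given by their usual coordinates, are finite and transitive.
-/

set_option autoImplicit false

namespace Pool.Agent.Results.MP_c35292_co.BothCells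

open Pool.Agent.Results.MP_528470_co.TransitiveSubsoluble (IsTransitiveSet IsSolubleSet)
open Real

/-- The points of `ℝ⁴` whose vector of absolute values is an even permutation of one of the
vectors `v s`. -/
def pat {m : ℕ} (v : Fin m → Fin 4 → ℝ) : Set (EuclideanSpace ℝ (Fin 4)) :=
  {x | ∃ s : Fin m, ∃ σ : Equiv.Perm (Fin 4), Equiv.Perm.sign σ = 1 ∧ ∀ i, |x i| = v s (σ i)}

/-- Coordinates of the 120-cell (radius `√8`); the golden ratio is `Real.goldenRatio`. -/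
noncomputable def v120 : Fin 7 → Fin 4 → ℝ :=
  ![![0, 0, 2, 2], ![1, 1, 1, √5],
    ![goldenRatio⁻¹ ^ 2, goldenRatio, goldenRatio, goldenRatio],
    ![goldenRatio⁻¹, goldenRatio⁻¹, goldenRatio⁻¹, goldenRatio ^ 2],
    ![0, goldenRatio⁻¹ ^ 2, 1, goldenRatio ^ 2],
    ![0, goldenRatio⁻¹, goldenRatio, √5],
    ![goldenRatio⁻¹, 1, goldenRatio, 2]]

/-- Coordinates of the 600-cell (radius `2`). -/
noncomputable def v600 : Fin 3 → Fin 4 → ℝ :=
  ![![2, 0, 0, 0], ![1, 1, 1, 1], ![goldenRatio, 1, goldenRatio⁻¹, 0]]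

/-- The vertex set of the 120-cell. -/
noncomputable def cell120 : Set (EuclideanSpace ℝ (Fin 4)) := pat v120

/-- The vertex set of the 600-cell. -/
noncomputable def cell600 : Set (EuclideanSpace ℝ (Fin 4)) := pat v600

/-- `X` is subsoluble: some finite soluble set in some `ℝⁿ` contains a copy of `X`. -/
def Subsoluble {d : ℕ} (X : Set (EuclideanSpace ℝ (Fin d))) : Prop :=
  ∃ n : ℕ, ∃ Y : Set (EuclideanSpace ℝ (Fin n)), Y.Finite ∧ IsSolubleSet Y ∧
    ∃ f : EuclideanSpace ℝ (Fin d) → EuclideanSpace ℝ (Fin n), Isometry f ∧ f '' X ⊆ Y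

/-! ### Arithmetic in `ℤ[φ]` -/

/-- The pair `(a, b)` stands for `a + b φ`. -/
abbrev Z := ℤ × ℤ

noncomputable def val (x : Z) : ℝ := x.1 + x.2 * goldenRatio

def mulZ (x y : Z) : Z := (x.1 * y.1 + x.2 * y.2, x.1 * y.2 + x.2 * y.1 + x.2 * y.2)
def addZ (x y : Z) : Z := (x.1 + y.1, x.2 + y.2)
def subZ (x y : Z) : Z := (x.1 - y.1, x.2 - y.2)
def negZ (x : Z) : Z := (-x.1, -x.2)
def eqZ (x y : Z) : Bool := (x.1 == y.1) && (x.2 == y.2)
def pmZ (x y : Z) : Bool := eqZ x y || eqZ x (negZ y)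
def sg (b : Bool) (x : Z) : Z := if b then x else negZ x

theorem val_mul (x y : Z) : val (mulZ x y) = val x * val y := by
  have h := goldenRatio_sq
  unfold val mulZ
  push_cast
  linear_combination (-(x.2 : ℝ) * y.2) * h

theorem val_add (x y : Z) : val (addZ x y) = val x + val y := by
  unfold val addZ; push_cast; ring

theorem val_sub (x y : Z) : val (subZ x y) = val x - val y := by
  unfold val subZ; push_cast; ring

theorem val_neg (x : Z) : val (negZ x) = -val x := by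
  unfold val negZ; push_cast; ring

theorem eqZ_iff (x y : Z) : eqZ x y = true ↔ x = y := by
  unfold eqZ
  rw [Bool.and_eq_true, beq_iff_eq, beq_iff_eq, Prod.ext_iff]

theorem val_pm (x y : Z) (h : pmZ x y = true) : |val x| = |val y| := by
  unfold pmZ at h
  rw [Bool.or_eq_true, eqZ_iff, eqZ_iff] at h
  rcases h with h | h
  · rw [h]
  · rw [h, val_neg, abs_neg]

abbrev Z4 := Z × Z × Z × Z

/-- `i`-th coordinate -/
def co (x : Z4) : Fin 4 → Z := ![x.1, x.2.1, x.2.2.1, x.2.2.2]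

def dot (r x : Z4) : Z :=
  addZ (mulZ r.1 x.1) (addZ (mulZ r.2.1 x.2.1) (addZ (mulZ r.2.2.1 x.2.2.1)
    (mulZ r.2.2.2 x.2.2.2)))

/-- Twice the reflection, in one coordinate. -/
def refc (d r x : Z) : Z := subZ (addZ x x) (mulZ d r)

def okd (d r x : Z4) (q : Z4) : Bool :=
  pmZ (refc d.1 r.1 x.1) (addZ q.1 q.1) && (pmZ (refc d.1 r.2.1 x.2.1) (addZ q.2.1 q.2.1) &&
    (pmZ (refc d.1 r.2.2.1 x.2.2.1) (addZ q.2.2.1 q.2.2.1) &&
      pmZ (refc d.1 r.2.2.2 x.2.2.2) (addZ q.2.2.2 q.2.2.2)))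

def ok (r : Z4) (P : List Z4) (x : Z4) : Bool := P.any (fun q => okd (dot r x, (0, 0), (0, 0), (0, 0)) r x q)

def signs : List (Bool × Bool × Bool × Bool) :=
  [(true, true, true, true), (true, true, true, false), (true, true, false, true),
    (true, true, false, false), (true, false, true, true), (true, false, true, false),
    (true, false, false, true), (true, false, false, false), (false, true, true, true),
    (false, true, true, false), (false, true, false, true), (false, true, false, false),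
    (false, false, true, true), (false, false, true, false), (false, false, false, true),
    (false, false, false, false)]

theorem mem_signs (e : Bool × Bool × Bool × Bool) : e ∈ signs := by
  revert e; decide

def app (e : Bool × Bool × Bool × Bool) (x : Z4) : Z4 :=
  (sg e.1 x.1, sg e.2.1 x.2.1, sg e.2.2.1 x.2.2.1, sg e.2.2.2 x.2.2.2)

def checkA (r : Z4) (P : List Z4) : Bool := P.all (fun p => signs.all (fun e => ok r P (app e p)))

def P120 : List (Z × Z × Z × Z) :=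
  [((0, 0), (0, 0), (2, 0), (2, 0)), ((0, 0), (2, 0), (2, 0), (0, 0)),
    ((0, 0), (2, 0), (0, 0), (2, 0)), ((2, 0), (0, 0), (0, 0), (2, 0)),
    ((2, 0), (0, 0), (2, 0), (0, 0)), ((2, 0), (2, 0), (0, 0), (0, 0)),
    ((1, 0), (1, 0), (1, 0), (-1, 2)), ((1, 0), (1, 0), (-1, 2), (1, 0)),
    ((1, 0), (-1, 2), (1, 0), (1, 0)), ((-1, 2), (1, 0), (1, 0), (1, 0)),
    ((2, -1), (0, 1), (0, 1), (0, 1)), ((0, 1), (2, -1), (0, 1), (0, 1)),
    ((0, 1), (0, 1), (2, -1), (0, 1)), ((0, 1), (0, 1), (0, 1), (2, -1)),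
    ((-1, 1), (-1, 1), (-1, 1), (1, 1)), ((-1, 1), (-1, 1), (1, 1), (-1, 1)),
    ((-1, 1), (1, 1), (-1, 1), (-1, 1)), ((1, 1), (-1, 1), (-1, 1), (-1, 1)),
    ((0, 0), (2, -1), (1, 0), (1, 1)), ((0, 0), (1, 0), (1, 1), (2, -1)),
    ((0, 0), (1, 1), (2, -1), (1, 0)), ((2, -1), (0, 0), (1, 1), (1, 0)),
    ((2, -1), (1, 0), (0, 0), (1, 1)), ((2, -1), (1, 1), (1, 0), (0, 0)),
    ((1, 0), (0, 0), (2, -1), (1, 1)), ((1, 0), (2, -1), (1, 1), (0, 0)),
    ((1, 0), (1, 1), (0, 0), (2, -1)), ((1, 1), (0, 0), (1, 0), (2, -1)),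
    ((1, 1), (2, -1), (0, 0), (1, 0)), ((1, 1), (1, 0), (2, -1), (0, 0)),
    ((0, 0), (-1, 1), (0, 1), (-1, 2)), ((0, 0), (0, 1), (-1, 2), (-1, 1)),
    ((0, 0), (-1, 2), (-1, 1), (0, 1)), ((-1, 1), (0, 0), (-1, 2), (0, 1)),
    ((-1, 1), (0, 1), (0, 0), (-1, 2)), ((-1, 1), (-1, 2), (0, 1), (0, 0)),
    ((0, 1), (0, 0), (-1, 1), (-1, 2)), ((0, 1), (-1, 1), (-1, 2), (0, 0)),
    ((0, 1), (-1, 2), (0, 0), (-1, 1)), ((-1, 2), (0, 0), (0, 1), (-1, 1)),
    ((-1, 2), (-1, 1), (0, 0), (0, 1)), ((-1, 2), (0, 1), (-1, 1), (0, 0)),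
    ((-1, 1), (1, 0), (0, 1), (2, 0)), ((-1, 1), (0, 1), (2, 0), (1, 0)),
    ((-1, 1), (2, 0), (1, 0), (0, 1)), ((1, 0), (-1, 1), (2, 0), (0, 1)),
    ((1, 0), (0, 1), (-1, 1), (2, 0)), ((1, 0), (2, 0), (0, 1), (-1, 1)),
    ((0, 1), (-1, 1), (1, 0), (2, 0)), ((0, 1), (1, 0), (2, 0), (-1, 1)),
    ((0, 1), (2, 0), (-1, 1), (1, 0)), ((2, 0), (-1, 1), (0, 1), (1, 0)),
    ((2, 0), (1, 0), (-1, 1), (0, 1)), ((2, 0), (0, 1), (1, 0), (-1, 1))]
def P600 : List (Z × Z × Z × Z) :=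
  [((2, 0), (0, 0), (0, 0), (0, 0)), ((0, 0), (2, 0), (0, 0), (0, 0)),
    ((0, 0), (0, 0), (2, 0), (0, 0)), ((0, 0), (0, 0), (0, 0), (2, 0)),
    ((1, 0), (1, 0), (1, 0), (1, 0)), ((0, 1), (1, 0), (-1, 1), (0, 0)),
    ((0, 1), (-1, 1), (0, 0), (1, 0)), ((0, 1), (0, 0), (1, 0), (-1, 1)),
    ((1, 0), (0, 1), (0, 0), (-1, 1)), ((1, 0), (-1, 1), (0, 1), (0, 0)),
    ((1, 0), (0, 0), (-1, 1), (0, 1)), ((-1, 1), (0, 1), (1, 0), (0, 0)),
    ((-1, 1), (1, 0), (0, 0), (0, 1)), ((-1, 1), (0, 0), (0, 1), (1, 0)),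
    ((0, 0), (0, 1), (-1, 1), (1, 0)), ((0, 0), (1, 0), (0, 1), (-1, 1)),
    ((0, 0), (-1, 1), (1, 0), (0, 1))]

def r120 : Z4 := ((1, 0), (0, 1), (-1, 1), (0, 0))
def r600 : Z4 := ((0, 1), (1, 0), (-1, 1), (0, 0))

def V120 : Fin 7 → Fin 4 → Z :=
  ![![(0, 0), (0, 0), (2, 0), (2, 0)], ![(1, 0), (1, 0), (1, 0), (-1, 2)],
    ![(2, -1), (0, 1), (0, 1), (0, 1)], ![(-1, 1), (-1, 1), (-1, 1), (1, 1)],
    ![(0, 0), (2, -1), (1, 0), (1, 1)], ![(0, 0), (-1, 1), (0, 1), (-1, 2)],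
    ![(-1, 1), (1, 0), (0, 1), (2, 0)]]

def V600 : Fin 3 → Fin 4 → Z :=
  ![![(2, 0), (0, 0), (0, 0), (0, 0)], ![(1, 0), (1, 0), (1, 0), (1, 0)],
    ![(0, 1), (1, 0), (-1, 1), (0, 0)]]

theorem checkA120 : checkA r120 P120 = true := by decide +kernel
theorem checkA600 : checkA r600 P600 = true := by decide +kernel

def tup {m : ℕ} (V : Fin m → Fin 4 → Z) (s : Fin m) (σ : Equiv.Perm (Fin 4)) : Z4 :=
  (V s (σ 0), V s (σ 1), V s (σ 2), V s (σ 3))

theorem mem120 : ∀ s : Fin 7, ∀ σ : Equiv.Perm (Fin 4), Equiv.Perm.sign σ = 1 →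
    tup V120 s σ ∈ P120 := by decide +kernel
theorem mem600 : ∀ s : Fin 3, ∀ σ : Equiv.Perm (Fin 4), Equiv.Perm.sign σ = 1 →
    tup V600 s σ ∈ P600 := by decide +kernel
theorem ex120 : ∀ p ∈ P120, ∃ s : Fin 7, ∃ σ : Equiv.Perm (Fin 4), Equiv.Perm.sign σ = 1 ∧
    tup V120 s σ = p := by decide +kernel
theorem ex600 : ∀ p ∈ P600, ∃ s : Fin 3, ∃ σ : Equiv.Perm (Fin 4), Equiv.Perm.sign σ = 1 ∧
    tup V600 s σ = p := by decide +kernel
def Q120 : List Z4 :=
  [((0, 0), (2, -1), (1, 0), (1, 1)), ((0, 0), (1, 0), (1, 1), (2, -1)),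
    ((0, 0), (1, 1), (2, -1), (1, 0)), ((2, -1), (0, 0), (1, 1), (1, 0)),
    ((2, -1), (1, 0), (0, 0), (1, 1)), ((2, -1), (1, 1), (1, 0), (0, 0)),
    ((1, 0), (0, 0), (2, -1), (1, 1)), ((1, 0), (2, -1), (1, 1), (0, 0)),
    ((1, 0), (1, 1), (0, 0), (2, -1)), ((1, 1), (0, 0), (1, 0), (2, -1)),
    ((1, 1), (2, -1), (0, 0), (1, 0)), ((1, 1), (1, 0), (2, -1), (0, 0))]

def Q600 : List Z4 :=
  [((0, 1), (1, 0), (-1, 1), (0, 0)), ((0, 1), (-1, 1), (0, 0), (1, 0)),
    ((0, 1), (0, 0), (1, 0), (-1, 1)), ((1, 0), (0, 1), (0, 0), (-1, 1)),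
    ((1, 0), (-1, 1), (0, 1), (0, 0)), ((1, 0), (0, 0), (-1, 1), (0, 1)),
    ((-1, 1), (0, 1), (1, 0), (0, 0)), ((-1, 1), (1, 0), (0, 0), (0, 1)),
    ((-1, 1), (0, 0), (0, 1), (1, 0)), ((0, 0), (0, 1), (-1, 1), (1, 0)),
    ((0, 0), (1, 0), (0, 1), (-1, 1)), ((0, 0), (-1, 1), (1, 0), (0, 1))]

theorem exQ120 : ∀ p ∈ Q120, ∃ σ : Equiv.Perm (Fin 4), Equiv.Perm.sign σ = 1 ∧
    tup V120 4 σ = p := by decide +kernel
theorem exQ600 : ∀ p ∈ Q600, ∃ σ : Equiv.Perm (Fin 4), Equiv.Perm.sign σ = 1 ∧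
    tup V600 2 σ = p := by decide +kernel

theorem checkB120 : ∀ s : Fin 7, ∃ σ : Equiv.Perm (Fin 4), Equiv.Perm.sign σ = 1 ∧
    (signs.any fun e => ok r120 Q120 (app e (tup V120 s σ))) = true := by decide +kernel
theorem checkB600 : ∀ s : Fin 3, ∃ σ : Equiv.Perm (Fin 4), Equiv.Perm.sign σ = 1 ∧
    (signs.any fun e => ok r600 Q600 (app e (tup V600 s σ))) = true := by decide +kernel

/-! ### Isometries -/

/-- Coordinate permutation combined with sign changes. -/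
noncomputable def sp (σ : Equiv.Perm (Fin 4)) (δ : Fin 4 → ℝ) (hδ : ∀ i, δ i * δ i = 1) :
    EuclideanSpace ℝ (Fin 4) ≃ᵢ EuclideanSpace ℝ (Fin 4) where
  toFun x := WithLp.toLp 2 (fun i => δ i * x (σ i))
  invFun y := WithLp.toLp 2 (fun i => δ (σ.symm i) * y (σ.symm i))
  left_inv x := by
    ext i
    simp only [Equiv.apply_symm_apply]
    rw [← mul_assoc, hδ, one_mul]
  right_inv y := by
    ext i
    simp only [Equiv.symm_apply_apply]
    rw [← mul_assoc, hδ, one_mul]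
  isometry_toFun := by
    refine Isometry.of_dist_eq fun x y => ?_
    rw [EuclideanSpace.dist_eq, EuclideanSpace.dist_eq]
    congr 1
    rw [← Equiv.sum_comp σ (fun i => dist (x i) (y i) ^ 2)]
    refine Finset.sum_congr rfl fun i _ => ?_
    rw [Real.dist_eq, Real.dist_eq, sq_abs, sq_abs]
    have h := hδ i
    calc (δ i * x (σ i) - δ i * y (σ i)) ^ 2 = (δ i * δ i) * (x (σ i) - y (σ i)) ^ 2 := by ring
      _ = (x (σ i) - y (σ i)) ^ 2 := by rw [h, one_mul]

theorem sp_apply (σ : Equiv.Perm (Fin 4)) (δ : Fin 4 → ℝ) (hδ : ∀ i, δ i * δ i = 1)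
    (x : EuclideanSpace ℝ (Fin 4)) (i : Fin 4) : sp σ δ hδ x i = δ i * x (σ i) := rfl

/-- The reflection in the hyperplane orthogonal to `r`. -/
noncomputable def refl (r : EuclideanSpace ℝ (Fin 4)) :
    EuclideanSpace ℝ (Fin 4) ≃ᵢ EuclideanSpace ℝ (Fin 4) :=
  ((Submodule.span ℝ {r})ᗮ.reflection).toIsometryEquiv

theorem refl_apply (r : EuclideanSpace ℝ (Fin 4)) (hr : ‖r‖ ^ 2 = 4)
    (x : EuclideanSpace ℝ (Fin 4)) (i : Fin 4) :
    refl r x i = x i - (∑ j, r j * x j) / 2 * r i := by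
  have h1 : refl r x = -((Submodule.span ℝ {r}).reflection x) := by
    unfold refl
    simp [Submodule.reflection_orthogonal_apply]
  rw [h1, Submodule.reflection_singleton_apply]
  have h2 : inner ℝ r x = ∑ j, r j * x j := by
    rw [PiLp.inner_apply]
    refine Finset.sum_congr rfl fun j _ => ?_
    simp [mul_comm]
  have h3 : ((‖r‖ : ℝ) ^ 2) = 4 := hr
  simp only [RCLike.ofReal_real_eq_id, id_eq]
  rw [h2, h3]
  simp only [PiLp.neg_apply, PiLp.sub_apply, PiLp.smul_apply, smul_eq_mul, nsmul_eq_mul]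
  push_cast
  ring

/-! ### Transitivity -/

/-- The point with coordinates `X`. -/
noncomputable def vec (X : Z4) : EuclideanSpace ℝ (Fin 4) := WithLp.toLp 2 (fun i => val (co X i))

theorem vec_apply (X : Z4) (i : Fin 4) : vec X i = val (co X i) := rfl

theorem val_dot (r x : Z4) : val (dot r x) = ∑ j, val (co r j) * val (co x j) := by
  unfold dot
  rw [val_add, val_add, val_add, val_mul, val_mul, val_mul, val_mul, Fin.sum_univ_four]
  simp only [co, Matrix.cons_val_zero, Matrix.cons_val_one, Matrix.cons_val]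
  ring

theorem okd_spec (r x q : Z4) (h : okd (dot r x, (0, 0), (0, 0), (0, 0)) r x q = true) (i : Fin 4) :
    |2 * val (co x i) - val (dot r x) * val (co r i)| = |2 * val (co q i)| := by
  have key : ∀ a b c : Z, pmZ (refc (dot r x) b a) (addZ c c) = true →
      |2 * val a - val (dot r x) * val b| = |2 * val c| := by
    intro a b c hh
    have := val_pm _ _ hh
    unfold refc at this
    rw [val_sub, val_add, val_mul, val_add] at this
    rw [two_mul, two_mul]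
    exact this
  unfold okd at h
  rw [Bool.and_eq_true, Bool.and_eq_true, Bool.and_eq_true] at h
  obtain ⟨h0, h1, h2, h3⟩ := h
  fin_cases i
  · exact key _ _ _ h0
  · exact key _ _ _ h1
  · exact key _ _ _ h2
  · exact key _ _ _ h3

theorem refl_vec (r x q : Z4) (hr : ‖vec r‖ ^ 2 = 4)
    (h : okd (dot r x, (0, 0), (0, 0), (0, 0)) r x q = true) (i : Fin 4) :
    |refl (vec r) (vec x) i| = |val (co q i)| := by
  rw [refl_apply _ hr]
  have h1 := okd_spec r x q h i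
  have h2 : ∑ j, vec r j * vec x j = val (dot r x) := by
    rw [val_dot]; rfl
  rw [h2, vec_apply, vec_apply]
  have h3 : val (co x i) - val (dot r x) / 2 * val (co r i)
      = (2 * val (co x i) - val (dot r x) * val (co r i)) / 2 := by ring
  rw [h3, abs_div, h1, abs_mul]
  simp

theorem co_app (e : Bool × Bool × Bool × Bool) (X : Z4) (i : Fin 4) :
    val (co (app e X) i) = (if (![e.1, e.2.1, e.2.2.1, e.2.2.2] : Fin 4 → Bool) i then 1 else -1)
      * val (co X i) := by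
  have key : ∀ (b : Bool) (x : Z), val (sg b x) = (if b then 1 else -1) * val x := by
    intro b x
    cases b
    · simp [sg, val_neg]
    · simp [sg]
  fin_cases i
  · exact key _ _
  · exact key _ _
  · exact key _ _
  · exact key _ _

theorem co_tup {m : ℕ} (V : Fin m → Fin 4 → Z) (s : Fin m) (σ : Equiv.Perm (Fin 4)) (i : Fin 4) :
    co (tup V s σ) i = V s (σ i) := by
  fin_cases i <;> rfl

/-- Every point of the pattern is `vec` of a signed tuple. -/
theorem exists_vec {m : ℕ} (v : Fin m → Fin 4 → ℝ) (V : Fin m → Fin 4 → Z)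
    (hv : ∀ s i, v s i = val (V s i)) (x : EuclideanSpace ℝ (Fin 4)) (s : Fin m)
    (σ : Equiv.Perm (Fin 4)) (hx : ∀ i, |x i| = v s (σ i)) :
    ∃ e : Bool × Bool × Bool × Bool, x = vec (app e (tup V s σ)) := by
  classical
  let b : Fin 4 → Bool := fun i => decide (0 ≤ x i)
  refine ⟨(b 0, b 1, b 2, b 3), ?_⟩
  ext i
  rw [vec_apply, co_app, co_tup, ← hv, ← hx i]
  have hb : (![(b 0, b 1, b 2, b 3).1, (b 0, b 1, b 2, b 3).2.1, (b 0, b 1, b 2, b 3).2.2.1,
      (b 0, b 1, b 2, b 3).2.2.2] : Fin 4 → Bool) i = b i := by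
    fin_cases i <;> rfl
  rw [hb]
  by_cases h : 0 ≤ x i
  · simp [b, h, abs_of_nonneg h]
  · have h' : x i < 0 := lt_of_not_ge h
    simp only [b, h, decide_false, Bool.false_eq_true, if_false]
    rw [abs_of_neg h']
    ring

theorem pat_finite {m : ℕ} (v : Fin m → Fin 4 → ℝ) (V : Fin m → Fin 4 → Z)
    (hv : ∀ s i, v s i = val (V s i)) : (pat v).Finite := by
  refine Set.Finite.subset (Set.finite_range
    (fun t : Fin m × Equiv.Perm (Fin 4) × (Bool × Bool × Bool × Bool) =>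
      vec (app t.2.2 (tup V t.1 t.2.1)))) ?_
  rintro x ⟨s, σ, -, hx⟩
  obtain ⟨e, he⟩ := exists_vec v V hv x s σ hx
  exact ⟨(s, σ, e), he.symm⟩

theorem image_eq {n : ℕ} (X : Set (EuclideanSpace ℝ (Fin n))) (hX : X.Finite)
    (g : EuclideanSpace ℝ (Fin n) ≃ᵢ EuclideanSpace ℝ (Fin n)) (h : ∀ x ∈ X, g x ∈ X) :
    ⇑g '' X = X := by
  refine Set.eq_of_subset_of_ncard_le ?_ ?_ hX
  · rintro _ ⟨x, hx, rfl⟩
    exact h x hx
  · rw [Set.ncard_image_of_injective _ g.injective]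

/-- Two points are equivalent if an isometry preserving `X` maps one to the other. -/
def Rel {n : ℕ} (X : Set (EuclideanSpace ℝ (Fin n))) (x y : EuclideanSpace ℝ (Fin n)) : Prop :=
  ∃ g : EuclideanSpace ℝ (Fin n) ≃ᵢ EuclideanSpace ℝ (Fin n), ⇑g '' X = X ∧ g x = y

theorem Rel.symm {n : ℕ} {X : Set (EuclideanSpace ℝ (Fin n))} {x y : EuclideanSpace ℝ (Fin n)}
    (h : Rel X x y) : Rel X y x := by
  obtain ⟨g, h1, rfl⟩ := h
  refine ⟨g.symm, ?_, by simp⟩
  conv_lhs => rw [← h1]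
  rw [← Set.image_comp]
  simp

theorem Rel.trans {n : ℕ} {X : Set (EuclideanSpace ℝ (Fin n))} {x y z : EuclideanSpace ℝ (Fin n)}
    (h : Rel X x y) (h' : Rel X y z) : Rel X x z := by
  obtain ⟨g, h1, rfl⟩ := h
  obtain ⟨g', h1', rfl⟩ := h'
  refine ⟨g.trans g', ?_, by simp⟩
  have h2 : ⇑(g.trans g') = ⇑g' ∘ ⇑g := rfl
  rw [h2, Set.image_comp, h1, h1']

/-- Points with the same pattern are equivalent. -/
theorem rel_same {m : ℕ} (v : Fin m → Fin 4 → ℝ) (hfin : (pat v).Finite)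
    (x y : EuclideanSpace ℝ (Fin 4)) (s : Fin m) (σ τ : Equiv.Perm (Fin 4))
    (hσ : Equiv.Perm.sign σ = 1) (hτ : Equiv.Perm.sign τ = 1)
    (hx : ∀ i, |x i| = v s (σ i)) (hy : ∀ i, |y i| = v s (τ i)) : Rel (pat v) x y := by
  classical
  let ρ : Equiv.Perm (Fin 4) := τ.trans σ.symm
  have hρ : Equiv.Perm.sign ρ = 1 := by
    have : ρ = σ.symm * τ := rfl
    rw [this, Equiv.Perm.sign_mul, Equiv.Perm.sign_symm, hσ, hτ, one_mul]
  have hσρ : ∀ i, σ (ρ i) = τ i := fun i => by simp [ρ]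
  have hab : ∀ i, |y i| = |x (ρ i)| := by
    intro i
    rw [hy, hx, hσρ]
  let δ : Fin 4 → ℝ := fun i => if y i = x (ρ i) then 1 else -1
  have hδ : ∀ i, δ i * δ i = 1 := by
    intro i
    by_cases h : y i = x (ρ i) <;> simp [δ, h]
  refine ⟨sp ρ δ hδ, image_eq _ hfin _ ?_, ?_⟩
  · rintro z ⟨s', κ, hκ, hz⟩
    refine ⟨s', ρ.trans κ, ?_, fun i => ?_⟩
    · have : ρ.trans κ = κ * ρ := rfl
      rw [this, Equiv.Perm.sign_mul, hκ, hρ, one_mul]
    · rw [sp_apply, abs_mul]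
      have h1 : |δ i| = 1 := by
        by_cases h : y i = x (ρ i) <;> simp [δ, h]
      rw [h1, one_mul, hz]
      rfl
  · ext i
    rw [sp_apply]
    by_cases h : y i = x (ρ i)
    · simp [δ, h]
    · have h2 : y i = - x (ρ i) := by
        rcases abs_eq_abs.1 (hab i) with h3 | h3
        · exact absurd h3 h
        · exact h3
      simp only [δ, h, if_false]
      rw [h2]; ring

/-- The criterion. -/
theorem transitive_of_checks {m : ℕ} (v : Fin m → Fin 4 → ℝ) (V : Fin m → Fin 4 → Z)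
    (hv : ∀ s i, v s i = val (V s i)) (hnn : ∀ s i, 0 ≤ v s i) (r : Z4) (hr : ‖vec r‖ ^ 2 = 4)
    (P Q : List Z4) (s0 : Fin m)
    (hmem : ∀ s : Fin m, ∀ σ : Equiv.Perm (Fin 4), Equiv.Perm.sign σ = 1 → tup V s σ ∈ P)
    (hex : ∀ p ∈ P, ∃ s : Fin m, ∃ σ : Equiv.Perm (Fin 4), Equiv.Perm.sign σ = 1 ∧ tup V s σ = p)
    (hexQ : ∀ p ∈ Q, ∃ σ : Equiv.Perm (Fin 4), Equiv.Perm.sign σ = 1 ∧ tup V s0 σ = p)
    (hA : checkA r P = true)
    (hB : ∀ s : Fin m, ∃ σ : Equiv.Perm (Fin 4), Equiv.Perm.sign σ = 1 ∧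
      (signs.any fun e => ok r Q (app e (tup V s σ))) = true) :
    (pat v).Finite ∧ IsTransitiveSet (pat v) := by
  have hfin := pat_finite v V hv
  have hpreserve : ⇑(refl (vec r)) '' (pat v) = pat v := by
    refine image_eq _ hfin _ ?_
    rintro x ⟨s, σ, hσ, hx⟩
    obtain ⟨e, rfl⟩ := exists_vec v V hv x s σ hx
    have h1 := List.all_eq_true.1 (List.all_eq_true.1 hA _ (hmem s σ hσ)) e (mem_signs e)
    obtain ⟨q, hq, hok⟩ := List.any_eq_true.1 h1
    obtain ⟨s', σ', hσ', rfl⟩ := hex q hq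
    refine ⟨s', σ', hσ', fun i => ?_⟩
    rw [refl_vec r _ _ hr hok i, co_tup, ← hv, abs_of_nonneg (hnn _ _)]
  -- every point is equivalent to a point of pattern `s0`
  have hto : ∀ x ∈ pat v, ∃ y : EuclideanSpace ℝ (Fin 4), Rel (pat v) x y ∧
      ∃ σ : Equiv.Perm (Fin 4), Equiv.Perm.sign σ = 1 ∧ ∀ i, |y i| = v s0 (σ i) := by
    rintro x ⟨s, σ, hσ, hx⟩
    obtain ⟨τ, hτ, hany⟩ := hB s
    obtain ⟨e, -, hok⟩ := List.any_eq_true.1 hany
    obtain ⟨q, hq, hokd⟩ := List.any_eq_true.1 hok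
    obtain ⟨σ', hσ', rfl⟩ := hexQ q hq
    have hz : ∀ i, |vec (app e (tup V s τ)) i| = v s (τ i) := by
      intro i
      rw [vec_apply, co_app, co_tup, ← hv, abs_mul, abs_of_nonneg (hnn _ _)]
      have : ∀ b : Bool, |(if b then (1 : ℝ) else -1)| = 1 := by
        intro b; cases b <;> simp
      rw [this, one_mul]
    have h1 := rel_same v hfin x (vec (app e (tup V s τ))) s σ τ hσ hτ hx hz
    refine ⟨refl (vec r) (vec (app e (tup V s τ))), h1.trans ⟨_, hpreserve, rfl⟩, σ', hσ', ?_⟩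
    intro i
    rw [refl_vec r _ _ hr hokd i, co_tup, ← hv, abs_of_nonneg (hnn _ _)]
  refine ⟨hfin, ?_⟩
  intro x hx y hy
  obtain ⟨x', h1, σ, hσ, hx'⟩ := hto x hx
  obtain ⟨y', h2, τ, hτ, hy'⟩ := hto y hy
  exact (h1.trans (rel_same v hfin x' y' s0 σ τ hσ hτ hx' hy')).trans h2.symm

theorem val_phi_inv : val (-1, 1) = goldenRatio⁻¹ := by
  rw [inv_goldenRatio]
  have := goldenRatio_add_goldenConj
  unfold val
  push_cast
  linarith

theorem sqrt5_eq : √5 = val (-1, 2) := by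
  unfold val goldenRatio
  push_cast
  ring

theorem val_phi_inv_sq : val (2, -1) = goldenRatio⁻¹ ^ 2 := by
  rw [← val_phi_inv]
  have h := goldenRatio_sq
  unfold val
  push_cast
  linear_combination -h

theorem val_phi_sq : val (1, 1) = goldenRatio ^ 2 := by
  have h := goldenRatio_sq
  unfold val
  push_cast
  linear_combination -h

theorem hv120 : ∀ s i, v120 s i = val (V120 s i) := by
  have h1 := val_phi_inv
  have h2 := sqrt5_eq
  have h3 := val_phi_inv_sq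
  have h4 := val_phi_sq
  have h5 : val (0, 1) = goldenRatio := by unfold val; simp
  have h6 : val (0, 0) = 0 := by unfold val; simp
  have h7 : val (1, 0) = 1 := by unfold val; simp
  have h8 : val (2, 0) = 2 := by unfold val; simp
  intro s i
  unfold v120 V120
  rw [h2, ← h3, ← h4, ← h1]
  fin_cases s <;> fin_cases i <;> simp [h5, h6, h7, h8]

theorem hv600 : ∀ s i, v600 s i = val (V600 s i) := by
  have h1 := val_phi_inv
  have h5 : val (0, 1) = goldenRatio := by unfold val; simp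
  have h6 : val (0, 0) = 0 := by unfold val; simp
  have h7 : val (1, 0) = 1 := by unfold val; simp
  have h8 : val (2, 0) = 2 := by unfold val; simp
  intro s i
  unfold v600 V600
  fin_cases s <;> fin_cases i <;> simp [h5, h6, h7, h8, h1]

theorem hnn120 : ∀ s i, 0 ≤ v120 s i := by
  have h := goldenRatio_pos.le
  have h' : 0 ≤ goldenRatio⁻¹ := inv_nonneg.2 h
  intro s i
  unfold v120
  fin_cases s <;> fin_cases i <;> simp <;> positivity

theorem hnn600 : ∀ s i, 0 ≤ v600 s i := by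
  have h := goldenRatio_pos.le
  have h' : 0 ≤ goldenRatio⁻¹ := inv_nonneg.2 h
  intro s i
  unfold v600
  fin_cases s <;> fin_cases i <;> simp <;> positivity

theorem norm_vec (r : Z4) (h : dot r r = (4, 0)) : ‖vec r‖ ^ 2 = 4 := by
  rw [EuclideanSpace.norm_sq_eq]
  have h1 := val_dot r r
  rw [h] at h1
  have h2 : val (4, 0) = 4 := by unfold val; simp
  rw [h2] at h1
  rw [h1]
  refine Finset.sum_congr rfl fun i _ => ?_
  rw [Real.norm_eq_abs, sq_abs, vec_apply, sq]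

theorem trans120 : cell120.Finite ∧ IsTransitiveSet cell120 :=
  transitive_of_checks v120 V120 hv120 hnn120 r120 (norm_vec _ (by decide)) P120 Q120 4
    mem120 ex120 exQ120 checkA120 checkB120

theorem trans600 : cell600.Finite ∧ IsTransitiveSet cell600 :=
  transitive_of_checks v600 V600 hv600 hnn600 r600 (norm_vec _ (by decide)) P600 Q600 2
    mem600 ex600 exQ600 checkA600 checkB600

/-- The vertex sets of the 120-cell and of the 600-cell are transitive and subsoluble. -/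
theorem result : (IsTransitiveSet cell120 ∧ Subsoluble cell120) ∧
    (IsTransitiveSet cell600 ∧ Subsoluble cell600) := by
  have key : ∀ X : Set (EuclideanSpace ℝ (Fin 4)), X.Finite ∧ IsTransitiveSet X →
      IsTransitiveSet X ∧ Subsoluble X := by
    rintro X ⟨h1, h2⟩
    obtain ⟨n, -, Y, hY, hs, -, hf⟩ :=
      Pool.Agent.Results.MP_528470_co.TransitiveSubsoluble.result 4 X h1 h2
    exact ⟨h2, n, Y, hY, hs, hf⟩
  exact ⟨key _ trans120, key _ trans600⟩

end Pool.Agent.Results.MP_c35292_co.BothCells
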